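import Pool.Agent.Helper61_LT.Stmts
import Pool.Agent.Helper61_LT.Tools

/-!
# LT, module ONE: the one sided estimate
-/

set_option autoImplicit false
set_option linter.unusedSectionVars false

namespace Pool.Agent.LT.H34

open Matrix

section basic

variable {α β γ ι : Type} [Fintype α] [Fintype β] [Fintype γ] [Fintype ι]

theorem mul_sel [DecidableEq β] {k : ℕ} (A : Matrix α β ℝ) (I : Fin k → β) :
    A * (1 : Matrix β β ℝ).submatrix id I = A.submatrix id I := by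
  ext i j
  simp [Matrix.mul_apply, Matrix.one_apply]

theorem sel_mul [DecidableEq α] {k : ℕ} (A : Matrix α β ℝ) (J : Fin k → α) :
    (1 : Matrix α α ℝ).submatrix J id * A = A.submatrix J id := by
  ext i j
  simp [Matrix.mul_apply, Matrix.one_apply]

theorem exists_poly (s : Multiset ℝ) (F : ℝ → ℝ) :
    ∃ q : Polynomial ℝ, ∀ x ∈ s, q.eval x = F x := by
  classical
  refine ⟨Lagrange.interpolate s.toFinset id F, fun x hx => ?_⟩
  exact Lagrange.eval_interpolate_at_node F (Set.injOn_id _) (by simpa using hx)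

theorem hg_zero_iff [DecidableEq ι] (g : ι → ℕ) (A : Matrix ι ι ℝ) :
    Hg g g A 0 ↔ Commute (Matrix.diagonal fun i => (g i : ℝ)) A := by
  constructor
  · intro h
    refine Matrix.ext fun i j => ?_
    rw [Matrix.diagonal_mul, Matrix.mul_diagonal]
    by_cases hA : A i j = 0
    · rw [hA]
      simp
    · have h1 := h i j hA
      have h2 : g i = g j := by
        have h3 : (g i : ℤ) = g j := by simpa using h1
        exact_mod_cast h3
      rw [h2, mul_comm]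
  · intro h i j hA
    have h1 := congrFun (congrFun h i) j
    rw [Matrix.diagonal_mul, Matrix.mul_diagonal, mul_comm] at h1
    have h2 : (g i : ℝ) = g j := mul_left_cancel₀ hA h1
    have h3 : g i = g j := by exact_mod_cast h2
    simp [h3]

theorem hg_mul {a : α → ℕ} {b : β → ℕ} {c : γ → ℕ} {A : Matrix α β ℝ} {B : Matrix β γ ℝ}
    {i j : ℤ} (hA : Hg a b A i) (hB : Hg b c B j) : Hg a c (A * B) (i + j) := by
  intro x z hx
  rw [Matrix.mul_apply] at hx
  obtain ⟨y, -, hy⟩ := Finset.exists_ne_zero_of_sum_ne_zero hx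
  have h1 := hA x y (left_ne_zero_of_mul hy)
  have h2 := hB y z (right_ne_zero_of_mul hy)
  omega

theorem hg_transpose {a : α → ℕ} {b : β → ℕ} {A : Matrix α β ℝ}
    {i : ℤ} (hA : Hg a b A i) : Hg b a Aᵀ (-i) := by
  intro x y hx
  have h1 := hA y x hx
  omega

theorem hg_aeval [DecidableEq ι] {g : ι → ℕ} {A : Matrix ι ι ℝ} (h : Hg g g A 0)
    (q : Polynomial ℝ) : Hg g g (Polynomial.aeval A q) 0 := by
  rw [hg_zero_iff] at h ⊢
  induction q using Polynomial.induction_on' with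
  | add p q hp hq =>
    rw [map_add]
    exact hp.add_right hq
  | monomial n a =>
    rw [Polynomial.aeval_monomial]
    exact (Algebra.commute_algebraMap_right a _).mul_right (h.pow_right n)

theorem hg_inv [DecidableEq ι] {g : ι → ℕ} {A : Matrix ι ι ℝ} (h : Hg g g A 0)
    (hA : A.det ≠ 0) : Hg g g A⁻¹ 0 := by
  rw [hg_zero_iff] at h ⊢
  have hu : IsUnit A.det := isUnit_iff_ne_zero.mpr hA
  have h1 : A⁻¹ * (A * (Matrix.diagonal fun i => (g i : ℝ))) * A⁻¹ =
      A⁻¹ * ((Matrix.diagonal fun i => (g i : ℝ)) * A) * A⁻¹ := by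
    rw [h.eq]
  have h2 : A⁻¹ * (A * (Matrix.diagonal fun i => (g i : ℝ))) * A⁻¹ =
      (Matrix.diagonal fun i => (g i : ℝ)) * A⁻¹ := by
    rw [← Matrix.mul_assoc A⁻¹ A, Matrix.nonsing_inv_mul _ hu, Matrix.one_mul]
  have h3 : A⁻¹ * ((Matrix.diagonal fun i => (g i : ℝ)) * A) * A⁻¹ =
      A⁻¹ * (Matrix.diagonal fun i => (g i : ℝ)) := by
    rw [Matrix.mul_assoc, Matrix.mul_assoc, Matrix.mul_nonsing_inv _ hu, Matrix.mul_one]
  rw [h2, h3] at h1
  exact h1

/-- The cut off determinant is at most the trace. -/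
theorem lcut_le [DecidableEq ι] (A : Matrix ι ι ℝ) (δ : ℝ) (hA : A.PosSemidef) (hδ : 0 < δ)
    (hδ1 : δ < 1) : Lcut A δ ≤ A.trace := by
  have hH := hA.isHermitian
  unfold Lcut
  rw [hH.roots_charpoly_eq_eigenvalues, hH.trace_eq_sum_eigenvalues, Multiset.map_map]
  change ∑ i, _ ≤ ∑ i, _
  refine Finset.sum_le_sum fun i _ => ?_
  have h0 := hA.eigenvalues_nonneg i
  simp only [Function.comp_apply, RCLike.ofReal_real_eq_id, id_eq]
  rcases le_total δ (hH.eigenvalues i) with h | h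
  · rw [max_eq_left h]
    have := Real.log_le_sub_one_of_pos (lt_of_lt_of_le hδ h)
    linarith
  · rw [max_eq_right h]
    have := Real.log_neg hδ hδ1
    linarith

theorem trace_eq_HS {k : ℕ} (M : Matrix (Fin k) (Fin k) ℤ) :
    ((cst M)ᵀ * cst M).trace = HS M := by
  unfold Matrix.trace HS
  rw [Finset.sum_comm]
  refine Finset.sum_congr rfl fun i _ => ?_
  rw [Matrix.diag_apply, Matrix.mul_apply]
  refine Finset.sum_congr rfl fun j _ => ?_
  simp [cst, sq]

end basic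

/-- The modified minor. -/
theorem minor (lft : LftStmt) {k : ℕ} (M : Matrix (Fin k) (Fin k) ℤ) (K δ : ℝ)
    (gJ gI : Fin k → ℕ) (hK : 0 ≤ K) (hδ : 0 < δ) (hδ1 : δ < 1) (hM : M.det ≠ 0)
    (hb : Bd (cst M) K) (hg : Hg gJ gI (cst M) (-1)) :
    ∃ m : Matrix (Fin k) (Fin k) ℝ, m.det ≠ 0 ∧ Bd m⁻¹ (K / δ) ∧
      (cst M - m).rank ≤ zc ((cst M)ᵀ * cst M) δ ∧
      (m⁻¹ - (cst M)⁻¹).rank ≤ zc ((cst M)ᵀ * cst M) δ ∧ Hg gI gJ m⁻¹ 1 ∧
      Real.log |m.det| ≤ HS M := by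
  obtain ⟨q, hq⟩ := exists_poly ((cst M)ᵀ * cst M).charpoly.roots fun x => max x δ
  have hps : ((cst M)ᵀ * cst M).PosSemidef := by
    have := Matrix.posSemidef_conjTranspose_mul_self (cst M)
    rwa [Matrix.conjTranspose_eq_transpose_of_trivial] at this
  have hbA : Bd ((cst M)ᵀ * cst M) (K * K) := (hb.transpose hK).mul hb
  obtain ⟨-, hdet, hrk, -, hinv, -⟩ :=
    lft (Fin k) ((cst M)ᵀ * cst M) q δ (K * K) hps hδ hq (mul_nonneg hK hK) hbA
  set A := (cst M)ᵀ * cst M with hA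
  set P := Polynomial.aeval A q with hP
  have hM0 : (cst M).det ≠ 0 := by
    rw [cst_det]
    exact_mod_cast hM
  have hMu : IsUnit (cst M).det := isUnit_iff_ne_zero.mpr hM0
  have hMtu : IsUnit ((cst M)ᵀ).det := by rwa [Matrix.det_transpose]
  have hP0 : P.det ≠ 0 := by
    rw [hdet]
    exact (Real.exp_pos _).ne'
  have hPu : IsUnit P.det := isUnit_iff_ne_zero.mpr hP0
  have hm : ((cst M)ᵀ)⁻¹.det ≠ 0 := by
    rw [Matrix.det_nonsing_inv, Ring.inverse_eq_inv', Matrix.det_transpose]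
    exact inv_ne_zero hM0
  have hmd : (((cst M)ᵀ)⁻¹ * P).det ≠ 0 := by
    rw [Matrix.det_mul]
    exact mul_ne_zero hm hP0
  have hmi : (((cst M)ᵀ)⁻¹ * P)⁻¹ = P⁻¹ * (cst M)ᵀ := by
    rw [Matrix.mul_inv_rev, Matrix.nonsing_inv_nonsing_inv _ hMtu]
  have hr1 : (cst M - ((cst M)ᵀ)⁻¹ * P).rank ≤ zc A δ := by
    have h1 : cst M - ((cst M)ᵀ)⁻¹ * P = ((cst M)ᵀ)⁻¹ * (A - P) := by
      rw [Matrix.mul_sub, hA, ← Matrix.mul_assoc, Matrix.nonsing_inv_mul _ hMtu, Matrix.one_mul]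
    rw [h1]
    exact (Matrix.rank_mul_le_right _ _).trans hrk
  refine ⟨((cst M)ᵀ)⁻¹ * P, hmd, ?_, hr1, ?_, ?_, ?_⟩
  · rw [hmi]
    have h1 := hinv.mul (hb.transpose hK)
    have h2 : 1 / δ * K = K / δ := by ring
    rwa [h2] at h1
  · have hmu : IsUnit (((cst M)ᵀ)⁻¹ * P).det := isUnit_iff_ne_zero.mpr hmd
    have h1 : (((cst M)ᵀ)⁻¹ * P)⁻¹ - (cst M)⁻¹ =
        (((cst M)ᵀ)⁻¹ * P)⁻¹ * (cst M - ((cst M)ᵀ)⁻¹ * P) * (cst M)⁻¹ := by
      rw [Matrix.mul_sub, Matrix.sub_mul, Matrix.nonsing_inv_mul _ hmu, Matrix.one_mul,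
        Matrix.mul_assoc, Matrix.mul_nonsing_inv _ hMu, Matrix.mul_one]
    rw [h1]
    exact ((Matrix.rank_mul_le_left _ _).trans (Matrix.rank_mul_le_right _ _)).trans hr1
  · rw [hmi]
    have h1 : Hg gI gI A 0 := by
      have := hg_mul (hg_transpose hg) hg
      simpa using this
    have h2 : Hg gI gI P⁻¹ 0 := hg_inv (hg_aeval h1 q) hP0
    have h3 := hg_mul h2 (hg_transpose hg)
    simpa using h3
  · rw [Matrix.det_mul, hdet, Matrix.det_nonsing_inv, Ring.inverse_eq_inv',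
      Matrix.det_transpose, abs_mul, abs_inv, Real.log_mul (by positivity) (by positivity),
      Real.log_inv, abs_of_pos (Real.exp_pos _), Real.log_exp]
    have h1 : 0 ≤ Real.log |(cst M).det| := by
      apply Real.log_nonneg
      rw [cst_det]
      have h2 : (1 : ℤ) ≤ |M.det| := Int.one_le_abs hM
      exact_mod_cast h2
    have h2 := lcut_le A δ hps hδ hδ1
    rw [hA, trace_eq_HS] at h2
    rw [← hA] at h2
    linarith

section sel

variable {α β : Type} [Fintype α] [Fintype β]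

theorem HS_submatrix {k l : ℕ} (A : Matrix α β ℤ) (J : Fin k → α) (I : Fin l → β)
    (hJ : Function.Injective J) (hI : Function.Injective I) : HS (A.submatrix J I) ≤ HS A := by
  classical
  unfold HS
  calc ∑ i, ∑ j, ((A.submatrix J I) i j : ℝ) ^ 2 ≤ ∑ i, ∑ b, (A (J i) b : ℝ) ^ 2 := by
        refine Finset.sum_le_sum fun i _ => ?_
        have h1 : ∑ j, ((A.submatrix J I) i j : ℝ) ^ 2 =
            ∑ b ∈ Finset.univ.image I, (A (J i) b : ℝ) ^ 2 := by
          rw [Finset.sum_image fun a _ b _ h => hI h]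
          rfl
        rw [h1]
        exact Finset.sum_le_sum_of_subset_of_nonneg (Finset.subset_univ _)
          fun _ _ _ => sq_nonneg _
    _ = ∑ a ∈ Finset.univ.image J, ∑ b, (A a b : ℝ) ^ 2 := by
        rw [Finset.sum_image fun a _ b _ h => hJ h]
    _ ≤ ∑ a, ∑ b, (A a b : ℝ) ^ 2 :=
        Finset.sum_le_sum_of_subset_of_nonneg (Finset.subset_univ _)
          fun _ _ _ => Finset.sum_nonneg fun _ _ => sq_nonneg _

/-- Columns of a nonsingular minor are not zero. -/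
theorem col_ne {k : ℕ} (A : Matrix α β ℤ) (J : Fin k → α) (I : Fin k → β)
    (h : (A.submatrix J I).det ≠ 0) (b : Fin k) : ∃ a, A a (I b) ≠ 0 := by
  by_contra hc
  push Not at hc
  exact h (Matrix.det_eq_zero_of_column_eq_zero b fun i => hc (J i))

/-- Rows of a nonsingular minor are not zero. -/
theorem row_ne {k : ℕ} (A : Matrix α β ℤ) (J : Fin k → α) (I : Fin k → β)
    (h : (A.submatrix J I).det ≠ 0) (a : Fin k) : ∃ b, A (J a) b ≠ 0 := by
  by_contra hc
  push Not at hc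
  exact h (Matrix.det_eq_zero_of_row_eq_zero a fun i => hc (I i))

/-- The extension by zero of the matrix `B` (rows `I`, columns `J`). -/
def gm [DecidableEq α] {k : ℕ} (I J : Fin k → α) (B : Matrix (Fin k) (Fin k) ℝ) :
    Matrix α α ℝ :=
  (1 : Matrix α α ℝ).submatrix id I * B * (1 : Matrix α α ℝ).submatrix J id

theorem gm_ne [DecidableEq α] {k : ℕ} (I J : Fin k → α) (B : Matrix (Fin k) (Fin k) ℝ)
    (a b : α) (h : gm I J B a b ≠ 0) : ∃ i j, a = I i ∧ b = J j ∧ B i j ≠ 0 := by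
  unfold gm at h
  rw [Matrix.mul_apply] at h
  obtain ⟨j, -, hj⟩ := Finset.exists_ne_zero_of_sum_ne_zero h
  have h1 := left_ne_zero_of_mul hj
  have h2 := right_ne_zero_of_mul hj
  rw [Matrix.mul_apply] at h1
  obtain ⟨i, -, hi⟩ := Finset.exists_ne_zero_of_sum_ne_zero h1
  refine ⟨i, j, ?_, ?_, right_ne_zero_of_mul hi⟩
  · have h3 := left_ne_zero_of_mul hi
    by_contra hc
    exact h3 (by simp [Matrix.submatrix_apply, hc])
  · by_contra hc
    exact h2 (by simp [Matrix.submatrix_apply, Ne.symm hc])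

theorem mul_gm_mul [DecidableEq α] {γ : Type} [Fintype γ] {k : ℕ} (I J : Fin k → α)
    (B : Matrix (Fin k) (Fin k) ℝ) (A : Matrix β α ℝ) (C : Matrix α γ ℝ) :
    A * gm I J B * C = A.submatrix id I * B * C.submatrix J id := by
  unfold gm
  rw [← mul_sel A I, ← sel_mul C J]
  simp only [Matrix.mul_assoc]

theorem bd_gm [DecidableEq α] {k : ℕ} (I J : Fin k → α) (B : Matrix (Fin k) (Fin k) ℝ)
    (hI : Function.Injective I) (hJ : Function.Injective J) (L : ℝ) (hB : Bd B L) :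
    Bd (gm I J B) L := by
  have h1 : Bd ((1 : Matrix α α ℝ).submatrix id I) 1 :=
    bd_one.submatrix Function.injective_id hI
  have h2 : Bd ((1 : Matrix α α ℝ).submatrix J id) 1 :=
    bd_one.submatrix hJ Function.injective_id
  have h3 := (h1.mul hB).mul h2
  simpa [gm] using h3

end sel

theorem one (hod : HodStmt) (sod : SodStmt) (mat : MatStmt) (lft : LftStmt) : OneStmt := by
  intro n
  obtain ⟨c1, hc1⟩ := hod n
  obtain ⟨c2, hc2⟩ := sod n c1
  obtain ⟨c3, hc3⟩ := mat c2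
  refine ⟨2 * c3, ?_⟩
  intro C D _ _ _ _ K δ r dc dd d e e0 e1 f h θ k0 k1 J0 I0 J1 I1 hK hδ hδ1 dat hcard he0 he1
    hJ0 hI0 hJ1 hI1 hd0 hd1 hx0 hx1
  have hK0 : 0 ≤ K := by linarith
  -- degrees
  have hge : ∀ a b, e a b ≠ 0 → dd a + 1 = dd b := by
    intro a b hab
    have := dat.ge a b (by simpa [cst] using hab)
    omega
  have he0' : ∀ a b, e0 a b ≠ 0 → dd b % 2 = 0 ∧ e a b = e0 a b ∧ dd a % 2 = 1 := by
    intro a b hab
    have h1 := he0 a b
    by_cases hb : dd b % 2 = 0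
    · rw [if_pos hb] at h1
      refine ⟨hb, h1.symm, ?_⟩
      have := hge a b (by rw [← h1]; exact hab)
      omega
    · rw [if_neg hb] at h1
      exact absurd h1 hab
  have he1' : ∀ a b, e1 a b ≠ 0 → dd b % 2 = 1 ∧ e a b = e1 a b ∧ dd a % 2 = 0 := by
    intro a b hab
    have h1 := he0 a b
    have h2 : e1 a b = e a b - e0 a b := by rw [he1]; rfl
    by_cases hb : dd b % 2 = 0
    · rw [if_pos hb] at h1
      rw [h1, sub_self] at h2
      exact absurd h2 hab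
    · rw [if_neg hb] at h1
      rw [h1, sub_zero] at h2
      have := hge a b (by rw [← h2]; exact hab)
      refine ⟨by omega, h2.symm, by omega⟩
  have hI0e : ∀ i, dd (I0 i) % 2 = 0 := fun i => by
    obtain ⟨a, ha⟩ := col_ne e0 J0 I0 hd0 i
    exact (he0' _ _ ha).1
  have hJ0o : ∀ j, dd (J0 j) % 2 = 1 := fun j => by
    obtain ⟨b, hb⟩ := row_ne e0 J0 I0 hd0 j
    exact (he0' _ _ hb).2.2
  have hI1o : ∀ i, dd (I1 i) % 2 = 1 := fun i => by
    obtain ⟨a, ha⟩ := col_ne e1 J1 I1 hd1 i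
    exact (he1' _ _ ha).1
  have hJ1e : ∀ j, dd (J1 j) % 2 = 0 := fun j => by
    obtain ⟨b, hb⟩ := row_ne e1 J1 I1 hd1 j
    exact (he1' _ _ hb).2.2
  have hM0 : e0.submatrix J0 I0 = e.submatrix J0 I0 := by
    ext i j
    simp only [Matrix.submatrix_apply]
    rw [he0, if_pos (hI0e j)]
  have hM1 : e1.submatrix J1 I1 = e.submatrix J1 I1 := by
    ext i j
    simp only [Matrix.submatrix_apply]
    rw [he1, Matrix.sub_apply, he0, if_neg (by rw [hI1o j]; decide), sub_zero]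
  -- the minors
  have hg0 : Hg (dd ∘ J0) (dd ∘ I0) (cst (e0.submatrix J0 I0)) (-1) := by
    rw [hM0]
    intro i j hij
    exact dat.ge (J0 i) (I0 j) hij
  have hg1 : Hg (dd ∘ J1) (dd ∘ I1) (cst (e1.submatrix J1 I1)) (-1) := by
    rw [hM1]
    intro i j hij
    exact dat.ge (J1 i) (I1 j) hij
  have hb0 : Bd (cst (e0.submatrix J0 I0)) K := by
    rw [hM0, cst_submatrix]
    exact dat.be.submatrix hJ0 hI0
  have hb1 : Bd (cst (e1.submatrix J1 I1)) K := by
    rw [hM1, cst_submatrix]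
    exact dat.be.submatrix hJ1 hI1
  obtain ⟨m0, hm0, hm0b, hm0r, hm0i, hm0g, hm0l⟩ :=
    minor lft (e0.submatrix J0 I0) K δ (dd ∘ J0) (dd ∘ I0) hK0 hδ hδ1 hd0 hb0 hg0
  obtain ⟨m1, hm1, hm1b, hm1r, hm1i, hm1g, hm1l⟩ :=
    minor lft (e1.submatrix J1 I1) K δ (dd ∘ J1) (dd ∘ I1) hK0 hδ hδ1 hd1 hb1 hg1
  set z0 := zc ((cst (e0.submatrix J0 I0))ᵀ * cst (e0.submatrix J0 I0)) δ with hz0
  set z1 := zc ((cst (e1.submatrix J1 I1))ᵀ * cst (e1.submatrix J1 I1)) δ with hz1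
  set zL := zc (Lp (cst d)) δ with hzL
  -- the approximate inverse of `e`
  obtain ⟨Γ, hΓ⟩ : ∃ Γ, Γ = gm I0 J0 m0⁻¹ + gm I1 J1 m1⁻¹ := ⟨_, rfl⟩
  have hgΓ : Hg dd dd Γ 1 := by
    intro a b hab
    have h1 : gm I0 J0 m0⁻¹ a b ≠ 0 ∨ gm I1 J1 m1⁻¹ a b ≠ 0 := by
      by_contra hc
      push Not at hc
      apply hab
      rw [hΓ, Matrix.add_apply, hc.1, hc.2, add_zero]
    rcases h1 with h1 | h1
    · obtain ⟨i, j, rfl, rfl, hij⟩ := gm_ne _ _ _ _ _ h1
      exact hm0g i j hij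
    · obtain ⟨i, j, rfl, rfl, hij⟩ := gm_ne _ _ _ _ _ h1
      exact hm1g i j hij
  have hce : cst e = cst e0 + cst e1 := by
    rw [he1, cst_sub]
    abel
  have hc0 : ∀ a b, cst e0 a b ≠ 0 → dd b % 2 = 0 ∧ dd a % 2 = 1 := by
    intro a b hab
    have := he0' a b (by simpa [cst] using hab)
    exact ⟨this.1, this.2.2⟩
  have hc1' : ∀ a b, cst e1 a b ≠ 0 → dd b % 2 = 1 ∧ dd a % 2 = 0 := by
    intro a b hab
    have := he1' a b (by simpa [cst] using hab)
    exact ⟨this.1, this.2.2⟩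
  have z01 : cst e0 * gm I1 J1 m1⁻¹ = 0 := by
    ext a b
    rw [Matrix.mul_apply, Matrix.zero_apply]
    refine Finset.sum_eq_zero fun x _ => ?_
    by_contra hc
    have h1 := hc0 _ _ (left_ne_zero_of_mul hc)
    obtain ⟨i, j, rfl, rfl, -⟩ := gm_ne _ _ _ _ _ (right_ne_zero_of_mul hc)
    have := hI1o i
    omega
  have z10 : cst e1 * gm I0 J0 m0⁻¹ = 0 := by
    ext a b
    rw [Matrix.mul_apply, Matrix.zero_apply]
    refine Finset.sum_eq_zero fun x _ => ?_
    by_contra hc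
    have h1 := hc1' _ _ (left_ne_zero_of_mul hc)
    obtain ⟨i, j, rfl, rfl, -⟩ := gm_ne _ _ _ _ _ (right_ne_zero_of_mul hc)
    have := hI0e i
    omega
  have y01 : gm I0 J0 m0⁻¹ * cst e1 = 0 := by
    ext a b
    rw [Matrix.mul_apply, Matrix.zero_apply]
    refine Finset.sum_eq_zero fun x _ => ?_
    by_contra hc
    have h1 := hc1' _ _ (right_ne_zero_of_mul hc)
    obtain ⟨i, j, rfl, rfl, -⟩ := gm_ne _ _ _ _ _ (left_ne_zero_of_mul hc)
    have := hJ0o j
    omega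
  have y10 : gm I1 J1 m1⁻¹ * cst e0 = 0 := by
    ext a b
    rw [Matrix.mul_apply, Matrix.zero_apply]
    refine Finset.sum_eq_zero fun x _ => ?_
    by_contra hc
    have h1 := hc0 _ _ (right_ne_zero_of_mul hc)
    obtain ⟨i, j, rfl, rfl, -⟩ := gm_ne _ _ _ _ _ (left_ne_zero_of_mul hc)
    have := hJ1e j
    omega
  have heΓe : cst e * Γ * cst e - cst e =
      (cst e0).submatrix id I0 * (m0⁻¹ - (cst (e0.submatrix J0 I0))⁻¹) *
        (cst e0).submatrix J0 id +
      (cst e1).submatrix id I1 * (m1⁻¹ - (cst (e1.submatrix J1 I1))⁻¹) *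
        (cst e1).submatrix J1 id := by
    have h1 : cst e * Γ * cst e = cst e0 * gm I0 J0 m0⁻¹ * cst e0 +
        cst e1 * gm I1 J1 m1⁻¹ * cst e1 := by
      rw [hce, hΓ]
      have h2 : (cst e0 + cst e1) * (gm I0 J0 m0⁻¹ + gm I1 J1 m1⁻¹) =
          cst e0 * gm I0 J0 m0⁻¹ + cst e1 * gm I1 J1 m1⁻¹ := by
        rw [Matrix.add_mul, Matrix.mul_add, Matrix.mul_add, z01, z10]
        abel
      rw [h2, Matrix.add_mul, Matrix.mul_add, Matrix.mul_add, Matrix.mul_assoc _ _ (cst e1), y01,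
        Matrix.mul_assoc (cst e1) _ (cst e0), y10, Matrix.mul_zero, Matrix.mul_zero]
      abel
    rw [h1, mul_gm_mul, mul_gm_mul, Matrix.mul_sub, Matrix.sub_mul, Matrix.mul_sub,
      Matrix.sub_mul, ← hx0, ← hx1, hce]
    abel
  have hrΓ : (cst e * Γ * cst e - cst e).rank ≤ z0 + z1 := by
    rw [heΓe]
    refine (rk_add _ _).trans (add_le_add ?_ ?_)
    · exact ((Matrix.rank_mul_le_left _ _).trans (Matrix.rank_mul_le_right _ _)).trans hm0i
    · exact ((Matrix.rank_mul_le_left _ _).trans (Matrix.rank_mul_le_right _ _)).trans hm1i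
  -- the bound `Q`
  have hQ0 : 2 ≤ (K + 2) / δ := by
    rw [le_div_iff₀ hδ]
    nlinarith
  have hQ1 : K ≤ (K + 2) / δ := by
    rw [le_div_iff₀ hδ]
    nlinarith
  have hQ2 : K / δ ≤ (K + 2) / δ := by
    apply div_le_div_of_nonneg_right _ hδ.le
    linarith
  obtain ⟨q, hq⟩ : ∃ q, q = (K + 2) / δ := ⟨_, rfl⟩
  rw [← hq] at hQ0 hQ1 hQ2
  have hqQ : q ≤ q ^ 2 := by nlinarith
  have hQ : 2 ≤ q ^ 2 := by nlinarith
  have h2q : q + q ≤ q ^ 2 := by nlinarith
  have hpow : ∀ c : ℕ, q ^ c ≤ (q ^ 2) ^ c := fun c =>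
    pow_le_pow_left₀ (by linarith) hqQ c
  have hKQ : K ≤ q ^ 2 := hQ1.trans hqQ
  have hbΓ : Bd Γ (q ^ 2) := by
    have hKd : 0 ≤ K / δ := div_nonneg hK0 hδ.le
    have h1 := (bd_gm I0 J0 m0⁻¹ hI0 hJ0 _ hm0b).add (bd_gm I1 J1 m1⁻¹ hI1 hJ1 _ hm1b) hKd hKd
    rw [hΓ]
    exact h1.mono (by linarith) (by linarith)
  have hbm : Bd m0⁻¹ (q ^ 2) := hm0b.mono (div_nonneg hK0 hδ.le) (hQ2.trans hqQ)
  -- Hodge theory
  have hdd : cst d * cst d = 0 := by
    rw [← cst_mul, dat.dd0, cst_zero]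
  have hee : cst e * cst e = 0 := by
    rw [← cst_mul, dat.ee0, cst_zero]
  obtain ⟨γ, S, T, hγg, hST, hTS, hbS, hbT, hbγ, hrγ, hrS, hrT, htau⟩ :=
    hc1 C dc (cst d) K δ dat.le dat.gd hdd hK dat.bd hδ hδ1 hcard
  rw [← hq] at hbS hbT hbγ
  obtain ⟨R, hR⟩ : ∃ R, R = r + zL + z0 + z1 := ⟨_, rfl⟩
  have hrR : r ≤ R := by omega
  have hzR : zL ≤ R := by omega
  have hz0R : z0 ≤ R := by omega
  have hzzR : z0 + z1 ≤ R := by omega
  have hq0 : 0 ≤ q := by linarith
  obtain ⟨S', T', hS'T', hT'S', hbS', hbT', hrS', hdet⟩ :=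
    hc2 C D dc dd (cst d) (cst θ) γ (cst e) Γ (cst f) (cst h) S T R (q ^ 2) dat.le dat.gd dat.ge
      dat.gf dat.gh dat.gt hγg hgΓ hdd hee (hrΓ.trans hzzR)
      (by
        rw [← cst_mul, ← cst_mul, ← cst_sub]
        exact dat.fd.trans hrR)
      (by
        rw [← cst_mul, ← cst_mul, ← cst_sub]
        exact dat.hd.trans hrR)
      (by
        have := dat.ho
        rw [cst_sub, cst_sub, cst_sub, cst_one, cst_mul, cst_mul, cst_mul] at this
        exact this.trans hrR)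
      (hrγ.trans hzR) hQ (dat.bd.mono hK0 hKQ) (dat.bt.mono hK0 hKQ) (dat.bf.mono hK0 hKQ)
      (dat.bh.mono hK0 hKQ) hbΓ (hbγ.mono (pow_nonneg hq0 _) (hpow _))
      (hbS.mono (pow_nonneg hq0 _) (hpow _)) (hbT.mono (pow_nonneg hq0 _) (hpow _)) hST hTS
      (hrS.trans (Nat.mul_le_mul_left _ hzR)) (hrT.trans (Nat.mul_le_mul_left _ hzR))
  -- the integral matrix
  let E : Ev dc ≃ Od dc := Fintype.equivOfCardEq hcard
  have hblock : S' - eo dc (cst (d + θ)) - (cst h).submatrix Subtype.val I0 * m0⁻¹ *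
      (cst f).submatrix J0 Subtype.val = S' - eo dc (cst d + cst θ + cst h * Γ * cst f) := by
    have h1 : eo dc (cst d + cst θ + cst h * Γ * cst f) = eo dc (cst (d + θ)) +
        (cst h).submatrix Subtype.val I0 * m0⁻¹ * (cst f).submatrix J0 Subtype.val := by
      have h2 : cst h * Γ * cst f = (cst h).submatrix id I0 * m0⁻¹ * (cst f).submatrix J0 id +
          (cst h).submatrix id I1 * m1⁻¹ * (cst f).submatrix J1 id := by
        rw [hΓ, Matrix.mul_add, Matrix.add_mul, mul_gm_mul, mul_gm_mul]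
      refine Matrix.ext fun x y => ?_
      have h3 : ((cst h).submatrix id I1 * m1⁻¹ * (cst f).submatrix J1 id) x.1 y.1 = 0 := by
        rw [Matrix.mul_assoc, Matrix.mul_apply]
        refine Finset.sum_eq_zero fun i _ => ?_
        have h4 : (cst h).submatrix id I1 x.1 i = 0 := by
          by_contra hc
          have h5 := dat.gh x.1 (I1 i) hc
          have h6 := hI1o i
          have h7 := x.2
          omega
        rw [h4, zero_mul]
      have h8 : eo dc (cst d + cst θ + cst h * Γ * cst f) x y =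
          (cst d + cst θ) x.1 y.1 + (cst h * Γ * cst f) x.1 y.1 := rfl
      rw [h8, h2, Matrix.add_apply ((cst h).submatrix id I0 * m0⁻¹ * (cst f).submatrix J0 id), h3,
        add_zero, Matrix.add_apply (eo dc (cst (d + θ))), cst_add]
      rfl
    rw [h1]
    abel
  have hfin := hc3 C D dc d θ e f h S' T' k0 R J0 I0 m0 (q ^ 2) E hQ (dat.bd.mono hK0 hKQ)
    (dat.bt.mono hK0 hKQ) (dat.bf.mono hK0 hKQ) (dat.bh.mono hK0 hKQ) (dat.be.mono hK0 hKQ)
    hJ0 hI0 hm0 hbm (by rw [← hM0]; exact hm0r.trans hz0R) hS'T' hT'S' hbS' hbT'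
    (by rw [hblock]; exact hrS')
  rw [hdet E, htau E] at hfin
  have hHS : HS (e0.submatrix J0 I0) ≤ HS e := by
    rw [hM0]
    exact HS_submatrix e J0 I0 hJ0 hI0
  have hlog : Real.log (q ^ 2) = 2 * (Real.log (K + 2) + Real.log (1 / δ)) := by
    rw [Real.log_pow, hq, Real.log_div (by linarith) hδ.ne', Real.log_div one_ne_zero hδ.ne',
      Real.log_one]
    push_cast
    ring
  rw [hlog, hR] at hfin
  push_cast at hfin ⊢
  linarith

end Pool.Agent.LT.H34
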